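import Mathlib
import Pool.Agent.Helper10.CYC.OddDefs

/-!
# Piece F: the polynomial contradiction for E2
-/

set_option autoImplicit false

namespace Pool.Agent.Helper47.CYC

open Finset Polynomial Pool.Agent.Helper10.CYC

section general

variable {K : Type*} [Field K]

lemma eval_zero_cop {D : K[X]} (hD : D.eval 0 ≠ 0) (n : ℕ) : IsCoprime D (X ^ n) := by
  apply IsCoprime.pow_right
  apply IsCoprime.symm
  rw [Polynomial.irreducible_X.coprime_iff_not_dvd, Polynomial.X_dvd_iff,
    Polynomial.coeff_zero_eq_eval_zero]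
  exact hD

lemma eq_zero_of_dvd_of_deg {D b : K[X]} {n : ℕ} (h : D ∣ b) (hd : D.natDegree = n)
    (hb : b.degree < n) : b = 0 := by
  by_contra hne
  have h1 := Polynomial.degree_le_of_dvd h hne
  have h2 : D ≠ 0 := by
    rintro rfl
    exact hne (zero_dvd_iff.1 h)
  rw [Polynomial.degree_eq_natDegree h2, hd] at h1
  exact absurd (lt_of_le_of_lt h1 hb) (lt_irrefl _)

end general

section base

variable {K : Type*} [Field K] [CharP K 2]

lemma two_zero : (2 : K[X]) = 0 := by
  have h : ((2 : ℕ) : K[X]) = 0 := CharP.cast_eq_zero K[X] 2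
  exact_mod_cast h

lemma der_sq (p : K[X]) : derivative (p ^ 2) = 0 := by
  rw [sq, derivative_mul, mul_comm p (derivative p), ← two_mul, two_zero, zero_mul]

lemma add_self' (p : K[X]) : p + p = 0 := by
  rw [← two_mul, two_zero, zero_mul]

lemma add_sq' (p q : K[X]) : (p + q) ^ 2 = p ^ 2 + q ^ 2 := by
  have : (p + q) ^ 2 = p ^ 2 + q ^ 2 + 2 * (p * q) := by ring
  rw [this, two_zero, zero_mul, add_zero]

lemma der_sq_add_X_mul_sq (p q : K[X]) : derivative (p ^ 2 + X * q ^ 2) = q ^ 2 := by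
  rw [derivative_add, der_sq, derivative_mul, der_sq]
  simp

/-- derivative trick. -/
lemma descent {D O p q : K[X]} (hD : D ≠ 0) (h : D ^ 2 * O ∣ p ^ 2 + X * q ^ 2) :
    ∃ p' q', p = D * p' ∧ q = D * q' ∧ O ∣ p' ^ 2 + X * q' ^ 2 := by
  obtain ⟨w, hw⟩ := h
  have h1 : derivative (p ^ 2 + X * q ^ 2) = D ^ 2 * derivative (O * w) := by
    rw [hw, mul_assoc, derivative_mul, der_sq, zero_mul, zero_add]
  rw [der_sq_add_X_mul_sq] at h1
  have h2 : D ∣ q := by
    have : D ^ 2 ∣ q ^ 2 := ⟨_, h1⟩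
    exact (UniqueFactorizationMonoid.pow_dvd_pow_iff_dvd (two_ne_zero)).1 this
  have h3 : D ∣ p := by
    have h5 : D ^ 2 ∣ p ^ 2 + X * q ^ 2 := ⟨O * w, by rw [hw, mul_assoc]⟩
    have h6 : D ^ 2 ∣ X * q ^ 2 := Dvd.dvd.mul_left (pow_dvd_pow_of_dvd h2 2) X
    have h7 : D ^ 2 ∣ p ^ 2 := (dvd_add_left h6).1 h5
    exact (UniqueFactorizationMonoid.pow_dvd_pow_iff_dvd (two_ne_zero)).1 h7
  obtain ⟨p', hp⟩ := h3
  obtain ⟨q', hq⟩ := h2
  refine ⟨p', q', hp, hq, w, ?_⟩
  have h8 : D ^ 2 * (p' ^ 2 + X * q' ^ 2) = D ^ 2 * (O * w) := by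
    rw [← mul_assoc, ← hw, hp, hq]; ring
  exact mul_left_cancel₀ (pow_ne_zero 2 hD) h8

/-- representation of the linear combinations of the columns. -/
lemma rep [IsAlgClosed K] (k s P c : ℕ) (hk : k = s + P + 1) (v : Fin k → K) :
    ∃ (a b : K[X]) (κ : K), a.degree < s ∧ b.degree < P ∧
      ∑ j, C (v j) * col2 k s P c j
        = X ^ (2 * P) * (a ^ 2 + (C κ) ^ 2 * X ^ (2 * c + k) + X * (X ^ c * b) ^ 2) ∧
      (a = 0 → b = 0 → κ = 0 → v = 0) := by
  have hw : ∀ j, ∃ z : K, z ^ 2 = v j := fun j =>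
    IsAlgClosed.exists_pow_nat_eq (v j) (by norm_num)
  choose w hw using hw
  have hs : s < k := by omega
  set a : K[X] := ∑ j : Fin k, if (j : ℕ) < s then C (w j) * X ^ (j : ℕ) else 0 with ha
  set b : K[X] := ∑ j : Fin k, if s < (j : ℕ) then C (w j) * X ^ ((j : ℕ) - s - 1) else 0 with hb
  refine ⟨a, b, w ⟨s, hs⟩, ?_, ?_, ?_, ?_⟩
  · rw [ha, ← Polynomial.mem_degreeLT]
    apply Submodule.sum_mem
    intro j _
    rw [Polynomial.mem_degreeLT]
    split_ifs with h
    · exact lt_of_le_of_lt (Polynomial.degree_C_mul_X_pow_le _ _) (by exact_mod_cast h)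
    · rw [degree_zero]; exact WithBot.bot_lt_coe s
  · rw [hb, ← Polynomial.mem_degreeLT]
    apply Submodule.sum_mem
    intro j _
    rw [Polynomial.mem_degreeLT]
    split_ifs with h
    · refine lt_of_le_of_lt (Polynomial.degree_C_mul_X_pow_le _ _) ?_
      have : (j : ℕ) - s - 1 < P := by have := j.2; omega
      exact_mod_cast this
    · rw [degree_zero]; exact WithBot.bot_lt_coe P
  · have : Fact (Nat.Prime 2) := ⟨Nat.prime_two⟩
    have e1 : a ^ 2 = ∑ j : Fin k, if (j : ℕ) < s then C (v j) * X ^ (2 * (j : ℕ)) else 0 := by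
      rw [ha, sum_pow_char]
      apply Finset.sum_congr rfl
      intro j _
      split_ifs with h
      · rw [mul_pow, ← C_pow, hw, ← pow_mul, mul_comm (j : ℕ) 2]
      · simp
    have e2 : b ^ 2 = ∑ j : Fin k, if s < (j : ℕ) then
        C (v j) * X ^ (2 * ((j : ℕ) - s - 1)) else 0 := by
      rw [hb, sum_pow_char]
      apply Finset.sum_congr rfl
      intro j _
      split_ifs with h
      · rw [mul_pow, ← C_pow, hw, ← pow_mul, mul_comm ((j : ℕ) - s - 1) 2]
      · simp
    have e3 : (C (w ⟨s, hs⟩)) ^ 2 * X ^ (2 * c + k)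
        = ∑ j : Fin k, if (j : ℕ) = s then C (v j) * X ^ (2 * c + k) else 0 := by
      rw [Finset.sum_eq_single (⟨s, hs⟩ : Fin k)]
      · simp only [if_true]
        rw [← C_pow, hw]
      · intro j _ hj
        rw [if_neg]
        intro h
        exact hj (Fin.ext h)
      · intro h; exact absurd (Finset.mem_univ _) h
    have e4 : X * (X ^ c * b) ^ 2 = X ^ (2 * c + 1) * b ^ 2 := by ring
    rw [e4, e1, e2, e3, Finset.mul_sum, ← Finset.sum_add_distrib, ← Finset.sum_add_distrib,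
      Finset.mul_sum]
    apply Finset.sum_congr rfl
    intro j _
    unfold col2
    by_cases h1 : (j : ℕ) < s
    · have h2 : ¬ (s < (j : ℕ)) := by omega
      have h3 : ¬ ((j : ℕ) = s) := by omega
      simp only [if_pos h1, if_neg h2, if_neg h3]
      ring
    · by_cases h3 : (j : ℕ) = s
      · have h2 : ¬ (s < (j : ℕ)) := by omega
        simp only [if_pos h3, if_neg h1, if_neg h2]
        ring
      · have h2 : s < (j : ℕ) := by omega
        simp only [if_pos h2, if_neg h1, if_neg h3]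
        have h4 : 2 * ((j : ℕ) - s) - 1 = 2 * ((j : ℕ) - s - 1) + 1 := by omega
        rw [h4]
        ring
  · intro ha0 hb0 hk0
    have hw0 : ∀ j, w j = 0 := by
      intro j
      rcases lt_trichotomy (j : ℕ) s with h | h | h
      · have h1 : a.coeff (j : ℕ) = w j := by
          rw [ha, Polynomial.finsetSum_coeff, Finset.sum_eq_single j]
          · rw [if_pos h, Polynomial.coeff_C_mul_X_pow, if_pos rfl]
          · intro i _ hij
            split_ifs with h2
            · rw [Polynomial.coeff_C_mul_X_pow, if_neg]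
              intro h3
              exact hij (Fin.ext h3.symm)
            · simp
          · intro h2; exact absurd (Finset.mem_univ _) h2
        rw [← h1, ha0, Polynomial.coeff_zero]
      · have : j = ⟨s, hs⟩ := Fin.ext h
        rw [this, hk0]
      · have h1 : b.coeff ((j : ℕ) - s - 1) = w j := by
          rw [hb, Polynomial.finsetSum_coeff, Finset.sum_eq_single j]
          · rw [if_pos h, Polynomial.coeff_C_mul_X_pow, if_pos rfl]
          · intro i _ hij
            split_ifs with h2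
            · rw [Polynomial.coeff_C_mul_X_pow, if_neg]
              intro h3
              apply hij
              apply Fin.ext
              omega
            · simp
          · intro h2; exact absurd (Finset.mem_univ _) h2
        rw [← h1, hb0, Polynomial.coeff_zero]
    funext j
    rw [← hw j, hw0 j]
    simp

end base

section main

variable {K : Type} [Field K] [CharP K 2]

/-- odd case, after scaling. -/
lemma odd_core {D O : K[X]} (hD : D.Monic) (hO : O.Monic) (hD0 : D.eval 0 ≠ 0)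
    (hO0 : O.eval 0 ≠ 0) (hsq : Squarefree O) (P t s : ℕ) (hP : D.natDegree = P)
    (ho : O.natDegree = 2 * t + 1) (hs : s = P + 2 * t)
    (h : ∀ c, P + c ≤ s → ∃ a b : K[X], a.degree < s ∧ b.degree < P ∧
      D ^ 2 * O ∣ a ^ 2 + X * (X ^ c * (b + X ^ (P + t))) ^ 2) : False := by
  have hDne : D ≠ 0 := hD.ne_zero
  have hOne : O ≠ 0 := hO.ne_zero
  -- descent for each c
  have h1 : ∀ c, P + c ≤ s → ∃ p b r : K[X], (D * p).degree < s ∧ b.degree < P ∧
      b + X ^ (P + t) = D * r ∧ O ∣ p ^ 2 + X * (X ^ c * r) ^ 2 := by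
    intro c hc
    obtain ⟨a, b, ha, hb, hdiv⟩ := h c hc
    obtain ⟨p', q', hp, hq, hO'⟩ := descent hDne hdiv
    have h2 : D ∣ X ^ c * (b + X ^ (P + t)) := ⟨q', hq⟩
    have h3 : D ∣ b + X ^ (P + t) := (eval_zero_cop hD0 c).dvd_of_dvd_mul_left h2
    obtain ⟨r, hr⟩ := h3
    refine ⟨p', b, r, hp ▸ ha, hb, hr, ?_⟩
    have h4 : q' = X ^ c * r := by
      apply mul_left_cancel₀ hDne
      rw [← hq, hr]; ring
    rw [h4] at hO'
    exact hO'
  obtain ⟨p0, b0, r, hp0, hb0, hr, hO0'⟩ := h1 0 (by omega)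
  rw [pow_zero, one_mul] at hO0'
  -- r is the same for all c
  have h2 : ∀ c, P + c ≤ s → ∃ p : K[X], (D * p).degree < s ∧
      O ∣ p ^ 2 + X * (X ^ c * r) ^ 2 := by
    intro c hc
    obtain ⟨p, b, r', hp, hb, hr', hO'⟩ := h1 c hc
    refine ⟨p, hp, ?_⟩
    have h3 : b - b0 = D * (r' - r) := by
      rw [mul_sub, ← hr, ← hr']; ring
    have h4 : b - b0 = 0 := by
      apply eq_zero_of_dvd_of_deg ⟨_, h3⟩ hP
      exact lt_of_le_of_lt (Polynomial.degree_sub_le _ _) (max_lt hb hb0)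
    have h5 : r' - r = 0 := by
      rw [h4] at h3
      rcases mul_eq_zero.1 h3.symm with h | h
      · exact absurd h hDne
      · exact h
    rw [sub_eq_zero.1 h5] at hO'
    exact hO'
  -- degree of r
  have hdr' : (D * r).degree = ((P + t : ℕ) : WithBot ℕ) := by
    rw [← hr, Polynomial.degree_add_eq_right_of_degree_lt]
    · exact Polynomial.degree_X_pow _
    · rw [Polynomial.degree_X_pow]
      refine lt_of_lt_of_le hb0 ?_
      exact_mod_cast Nat.le_add_right P t
  have hdr : (D * r).natDegree = P + t := Polynomial.natDegree_eq_of_degree_eq_some hdr'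
  have hrne : r ≠ 0 := by
    rintro rfl
    rw [mul_zero, degree_zero] at hdr'
    exact absurd hdr' WithBot.bot_ne_coe
  have hrdeg : r.natDegree = t := by
    rw [Polynomial.natDegree_mul hDne hrne, hP] at hdr
    omega
  -- p0 ≠ 0
  have hp0ne : p0 ≠ 0 := by
    rintro rfl
    rw [zero_pow two_ne_zero, zero_add] at hO0'
    have h3 : O ∣ r ^ 2 := by
      have hc := eval_zero_cop hO0 1
      rw [pow_one] at hc
      exact hc.dvd_of_dvd_mul_left hO0'
    have h4 : O ∣ r := (hsq.dvd_pow_iff_dvd two_ne_zero).1 h3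
    have h5 := Polynomial.natDegree_le_of_dvd h4 hrne
    omega
  have hdeg0 : P + p0.natDegree < s := by
    have h3 := hp0
    rw [Polynomial.degree_eq_natDegree (mul_ne_zero hDne hp0ne),
      Polynomial.natDegree_mul hDne hp0ne, hP] at h3
    exact_mod_cast h3
  obtain ⟨p, hp, hO'⟩ := h2 (2 * t - p0.natDegree) (by omega)
  set c := 2 * t - p0.natDegree with hc
  have h3 : O ∣ (X ^ c * p0) ^ 2 + X * (X ^ c * r) ^ 2 := by
    have : (X ^ c * p0) ^ 2 + X * (X ^ c * r) ^ 2 = (X ^ c) ^ 2 * (p0 ^ 2 + X * r ^ 2) := by ring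
    rw [this]
    exact Dvd.dvd.mul_left hO0' _
  have h4 : O ∣ (X ^ c * p0 + p) ^ 2 := by
    have h5 := dvd_add h3 hO'
    have h6 : (X ^ c * p0) ^ 2 + X * (X ^ c * r) ^ 2 + (p ^ 2 + X * (X ^ c * r) ^ 2)
        = (X ^ c * p0 + p) ^ 2 := by
      rw [add_sq']
      have : (X ^ c * p0) ^ 2 + X * (X ^ c * r) ^ 2 + (p ^ 2 + X * (X ^ c * r) ^ 2)
        = (X ^ c * p0) ^ 2 + p ^ 2 + (X * (X ^ c * r) ^ 2 + X * (X ^ c * r) ^ 2) := by ring
      rw [this, add_self', add_zero]
    rw [h6] at h5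
    exact h5
  have h5 : O ∣ X ^ c * p0 + p := (hsq.dvd_pow_iff_dvd two_ne_zero).1 h4
  have hXp : (X ^ c * p0).natDegree = 2 * t := by
    rw [Polynomial.natDegree_mul (pow_ne_zero _ Polynomial.X_ne_zero) hp0ne,
      Polynomial.natDegree_X_pow]
    omega
  have hXpne : X ^ c * p0 ≠ 0 := mul_ne_zero (pow_ne_zero _ Polynomial.X_ne_zero) hp0ne
  have hpdeg : p.degree < (X ^ c * p0).degree := by
    rw [Polynomial.degree_eq_natDegree hXpne, hXp]
    by_cases hpz : p = 0
    · rw [hpz, degree_zero]; exact WithBot.bot_lt_coe _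
    · rw [Polynomial.degree_eq_natDegree (mul_ne_zero hDne hpz),
        Polynomial.natDegree_mul hDne hpz, hP] at hp
      rw [Polynomial.degree_eq_natDegree hpz]
      have h6 : P + p.natDegree < s := by exact_mod_cast hp
      have h7 : p.natDegree < 2 * t := by omega
      exact_mod_cast h7
  have hsum : (X ^ c * p0 + p).degree = (X ^ c * p0).degree :=
    Polynomial.degree_add_eq_left_of_degree_lt hpdeg
  have hsumne : X ^ c * p0 + p ≠ 0 := by
    intro h6
    rw [h6, degree_zero, Polynomial.degree_eq_natDegree hXpne] at hsum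
    exact absurd hsum WithBot.bot_ne_coe
  have h8 := Polynomial.natDegree_le_of_dvd h5 hsumne
  have h9 : (X ^ c * p0 + p).natDegree = 2 * t := by
    rw [Polynomial.natDegree_eq_of_degree_eq hsum, hXp]
  omega

/-- Piece F. -/
theorem st_f : ST_F := by
  intro K _ _ _ D O hD hO hD0 hO0 hsq k s hk ho hs h
  have hDne : D ≠ 0 := hD.ne_zero
  have hOne : O ≠ 0 := hO.ne_zero
  have hks : k = s + D.natDegree + 1 := by omega
  have hcop : IsCoprime (D ^ 2 * O) (X ^ (2 * D.natDegree)) :=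
    ((eval_zero_cop hD0 _).pow_left).mul_left (eval_zero_cop hO0 _)
  have h1 : ∀ c, D.natDegree + c ≤ s → ∃ (a b : K[X]) (κ : K), a.degree < s ∧
      b.degree < D.natDegree ∧
      D ^ 2 * O ∣ a ^ 2 + (C κ) ^ 2 * X ^ (2 * c + k) + X * (X ^ c * b) ^ 2 ∧
      ¬ (a = 0 ∧ b = 0 ∧ κ = 0) := by
    intro c hc
    obtain ⟨v, hv, hdiv⟩ := h c hc
    obtain ⟨a, b, κ, ha, hb, he, hz⟩ := rep k s D.natDegree c hks v
    refine ⟨a, b, κ, ha, hb, ?_, ?_⟩
    · rw [he] at hdiv
      exact hcop.dvd_of_dvd_mul_left hdiv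
    · rintro ⟨h1, h2, h3⟩
      exact hv (hz h1 h2 h3)
  rcases Nat.even_or_odd' O.natDegree with ⟨t, ht | ht⟩
  · -- even case
    obtain ⟨a, b, κ, ha, hb, hdiv, hne⟩ := h1 (t - 1) (by omega)
    apply hne
    have e1 : a ^ 2 + (C κ) ^ 2 * X ^ (2 * (t - 1) + k) + X * (X ^ (t - 1) * b) ^ 2
        = (a + C κ * X ^ s) ^ 2 + X * (X ^ (t - 1) * b) ^ 2 := by
      rw [add_sq']
      have : 2 * (t - 1) + k = s * 2 := by omega
      rw [this]
      ring
    rw [e1] at hdiv
    obtain ⟨p', q', hp, hq, hO'⟩ := descent hDne hdiv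
    have h2 : D ∣ X ^ (t - 1) * b := ⟨q', hq⟩
    have h3 : D ∣ b := (eval_zero_cop hD0 _).dvd_of_dvd_mul_left h2
    have hb0 : b = 0 := eq_zero_of_dvd_of_deg h3 rfl hb
    have hq0 : q' = 0 := by
      rw [hb0, mul_zero] at hq
      rcases mul_eq_zero.1 hq.symm with h | h
      · exact absurd h hDne
      · exact h
    rw [hq0, zero_pow two_ne_zero, mul_zero, add_zero] at hO'
    obtain ⟨w, hw⟩ := (hsq.dvd_pow_iff_dvd two_ne_zero).1 hO'
    have h4 : D * O ∣ a + C κ * X ^ s := ⟨w, by rw [hp, hw, mul_assoc]⟩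
    have h5 : a + C κ * X ^ s = 0 := by
      apply eq_zero_of_dvd_of_deg (n := s + 1) h4
      · rw [Polynomial.natDegree_mul hDne hOne]; omega
      · refine lt_of_le_of_lt (Polynomial.degree_add_le _ _) (max_lt ?_ ?_)
        · refine lt_trans ha ?_
          exact_mod_cast Nat.lt_succ_self s
        · refine lt_of_le_of_lt (Polynomial.degree_C_mul_X_pow_le _ _) ?_
          exact_mod_cast Nat.lt_succ_self s
    have hκ : κ = 0 := by
      have h6 := congrArg (fun q : K[X] => q.coeff s) h5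
      simp only [Polynomial.coeff_add, Polynomial.coeff_C_mul_X_pow, if_true,
        Polynomial.coeff_zero] at h6
      rw [Polynomial.coeff_eq_zero_of_degree_lt ha, zero_add] at h6
      exact h6
    refine ⟨?_, hb0, hκ⟩
    rw [hκ, C_0, zero_mul, add_zero] at h5
    exact h5
  · -- odd case
    refine odd_core hD hO hD0 hO0 hsq D.natDegree t s rfl ht (by omega) ?_
    intro c hc
    obtain ⟨a, b, κ, ha, hb, hdiv, hne⟩ := h1 c hc
    have e1 : a ^ 2 + (C κ) ^ 2 * X ^ (2 * c + k) + X * (X ^ c * b) ^ 2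
        = a ^ 2 + X * (X ^ c * (b + C κ * X ^ (D.natDegree + t))) ^ 2 := by
      have h2 : 2 * c + k = 2 * c + (D.natDegree + t) * 2 + 1 := by omega
      have h3 : (X ^ c * (b + C κ * X ^ (D.natDegree + t))) ^ 2
          = (X ^ c * b) ^ 2 + (X ^ c * (C κ * X ^ (D.natDegree + t))) ^ 2 := by
        rw [mul_add, add_sq']
      rw [h3, h2]
      ring
    rw [e1] at hdiv
    have hκ : κ ≠ 0 := by
      intro hκ
      apply hne
      rw [hκ, C_0, zero_mul, add_zero] at hdiv
      obtain ⟨p', q', hp, hq, hO'⟩ := descent hDne hdiv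
      have h2 : D ∣ X ^ c * b := ⟨q', hq⟩
      have h3 : D ∣ b := (eval_zero_cop hD0 _).dvd_of_dvd_mul_left h2
      have hb0 : b = 0 := eq_zero_of_dvd_of_deg h3 rfl hb
      have hq0 : q' = 0 := by
        rw [hb0, mul_zero] at hq
        rcases mul_eq_zero.1 hq.symm with h | h
        · exact absurd h hDne
        · exact h
      rw [hq0, zero_pow two_ne_zero, mul_zero, add_zero] at hO'
      obtain ⟨w, hw⟩ := (hsq.dvd_pow_iff_dvd two_ne_zero).1 hO'
      have h4 : D * O ∣ a := ⟨w, by rw [hp, hw, mul_assoc]⟩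
      refine ⟨?_, hb0, hκ⟩
      apply eq_zero_of_dvd_of_deg (n := s + 1) h4
      · rw [Polynomial.natDegree_mul hDne hOne]; omega
      · refine lt_trans ha ?_
        exact_mod_cast Nat.lt_succ_self s
    refine ⟨C κ⁻¹ * a, C κ⁻¹ * b, ?_, ?_, ?_⟩
    · rw [Polynomial.degree_C_mul (inv_ne_zero hκ)]; exact ha
    · rw [Polynomial.degree_C_mul (inv_ne_zero hκ)]; exact hb
    · have h2 : C κ⁻¹ * C κ = (1 : K[X]) := by
        rw [← C_mul, inv_mul_cancel₀ hκ, C_1]
      have h3 : (C κ⁻¹ * a) ^ 2 + X * (X ^ c * (C κ⁻¹ * b + X ^ (D.natDegree + t))) ^ 2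
          = (C κ⁻¹) ^ 2 * (a ^ 2 + X * (X ^ c * (b + C κ * X ^ (D.natDegree + t))) ^ 2) := by
        have h4 : C κ⁻¹ * b + X ^ (D.natDegree + t)
            = C κ⁻¹ * (b + C κ * X ^ (D.natDegree + t)) := by
          rw [mul_add, ← mul_assoc (C κ⁻¹) (C κ), h2, one_mul]
        rw [h4]
        ring
      rw [h3]
      exact Dvd.dvd.mul_left hdiv _

end main

end Pool.Agent.Helper47.CYC
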